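import Pool.Agent.H530.HzP

/-!
# Pairs of members of almost prime tuples have independent parities, for almost all tuples

Let `H` and `H'` be admissible `k`-tuples of integers of ANY size. `rough H y X` is the set of the `n ≤ X` for
which none of the `k` numbers `n + H i` has a prime factor `≤ y`, where `y ^ K ≤ X`. Put `δ = 2 ^ (-⌊K / A⌋)`.

* The Liouville function at `n + b` is orthogonal on this set to every additive character `e (n α)`, up to
  `δ`, uniformly in `α` and in the integer `b`, `|b| ≤ X (log X) ^ B`, in particular for the members `n + H i`.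
* For all but `δ X` of the `d < X` for which the `2 k`-tuple of the `H i` and the `d + H' i` is admissible: for the
  `n ≤ X - d` for which all `2 k` numbers `n + H i`, `n + d + H' i` have no prime factor `≤ y`, the parities of the
  numbers of prime factors of `n + a` and of `n + d + b` are independent: each of the four patterns occurs for a
  quarter of the `n`, up to `δ`.
-/

set_option autoImplicit false

namespace Pool.Agent.Results.MP_dddec0_nt.IndependentParities

open Finset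

open Classical in
/-- the `n`, `1 ≤ n ≤ X`, for which none of the numbers `n + H i` has a prime factor up to `y` -/
noncomputable def rough {k : ℕ} (H : Fin k → ℤ) (y X : ℕ) : Finset ℕ :=
  (Icc 1 X).filter (fun n => ∀ p : ℕ, p.Prime → p ≤ y → ∀ i, ¬ (p : ℤ) ∣ n + H i)

/-- no prime divides the product of the `n + H i` for all integers `n` -/
def Admissible {m : ℕ} (H : Fin m → ℤ) : Prop := ∀ p : ℕ, p.Prime → ∃ n : ℤ, ∀ i, ¬ (p : ℤ) ∣ n + H i

/-- the `2 k`-tuple of the `H i` and the `d + H' i` -/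
def join {k : ℕ} (H H' : Fin k → ℤ) (d : ℕ) : Fin (k + k) → ℤ := Fin.append H (fun i => d + H' i)

open Classical in
/-- the `n ≤ X - d` for which none of the `2 k` numbers `n + H i`, `n + d + H' i` has a prime factor up to `y` -/
noncomputable def both {k : ℕ} (H H' : Fin k → ℤ) (d y X : ℕ) : Finset ℕ :=
  (Icc 1 (X - d)).filter (fun n => ∀ p : ℕ, p.Prime → p ≤ y → ∀ i, ¬ (p : ℤ) ∣ n + join H H' d i)

/-- `m` is not zero and its number of prime factors is odd (`s` true), or even (`s` false) -/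
def Par (s : Bool) (m : ℤ) : Prop := m ≠ 0 ∧ (Odd (ArithmeticFunction.cardFactors m.natAbs) ↔ s = true)

/-- the Liouville function at the integers -/
noncomputable def liouville (m : ℤ) : ℝ := if m = 0 then 0 else (-1) ^ ArithmeticFunction.cardFactors m.natAbs

open Classical in
/-- the `n` of `both` at which the parities are `s` and `t` -/
noncomputable def pattern {k : ℕ} (H H' : Fin k → ℤ) (d y X : ℕ) (a b : ℤ) (s t : Bool) : Finset ℕ :=
  (both H H' d y X).filter (fun n : ℕ => Par s ((n : ℤ) + a) ∧ Par t ((n : ℤ) + d + b))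

open Pool.Agent.H530.Ha Pool.Agent.H530.Hz Pool.Agent.H373R2.T7 in
lemma rough_eq {k : ℕ} (H : Fin k → ℤ) (y X : ℕ) :
    rough H y X = Pool.Agent.H530.Ha.RQ (QZ (fun _ => 1) H) X y := by
  classical
  ext n
  rw [mem_RQ]
  unfold rough
  rw [mem_filter, mem_Icc]
  apply and_congr Iff.rfl
  constructor
  · rintro h p hp ⟨j, hj⟩
    rw [one_mul] at hj
    exact h p (mem_pz.1 hp).2 (mem_pz.1 hp).1 j hj
  · intro h p hp hpy j hj
    refine h p (mem_pz.2 ⟨hpy, hp⟩) ⟨j, ?_⟩
    rw [one_mul]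
    exact hj

open Pool.Agent.H530.Ha in
lemma adz {k : ℕ} {H : Fin k → ℤ} (h : Admissible H) : AdZ (fun _ => 1) H := by
  intro p hp
  obtain ⟨n, hn⟩ := h p hp
  refine ⟨n, fun j => ?_⟩
  rw [one_mul]
  exact hn j

lemma liou_eq (m : ℤ) : liouville m = Pool.Agent.H530.Ha.lz m := by
  unfold liouville
  split_ifs with h
  · rw [h, Pool.Agent.H530.Ha.lz_zero]
  · unfold Pool.Agent.H530.Ha.lz
    exact (Pool.Agent.H530.Ha.la_eq (by omega)).symm

lemma both_iff {k : ℕ} {H H' : Fin k → ℤ} {d y X n : ℕ} (hd : d ≤ X) :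
    n ∈ both H H' d y X ↔ n ∈ rough H y X ∧ n + d ∈ rough H' y X := by
  classical
  unfold both rough join
  rw [mem_filter, mem_filter, mem_filter, mem_Icc, mem_Icc, mem_Icc]
  constructor
  · rintro ⟨h1, h2⟩
    refine ⟨⟨by omega, fun p hp hpy i => ?_⟩, by omega, fun p hp hpy i => ?_⟩
    · have := h2 p hp hpy (Fin.castAdd k i)
      rwa [Fin.append_left] at this
    · have := h2 p hp hpy (Fin.natAdd k i)
      rw [Fin.append_right] at this
      push_cast
      rw [add_assoc]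
      exact this
  · rintro ⟨⟨h1, h2⟩, h3, h4⟩
    refine ⟨by omega, fun p hp hpy i => ?_⟩
    refine Fin.addCases (fun i => ?_) (fun i => ?_) i
    · rw [Fin.append_left]
      exact h2 p hp hpy i
    · rw [Fin.append_right]
      have := h4 p hp hpy i
      push_cast at this
      rwa [add_assoc] at this

open Classical in
lemma filter_card {k : ℕ} {H H' : Fin k → ℤ} {d y X : ℕ} (hd : d ≤ X) (P : ℕ → ℕ → Prop) :
    ((rough H y X).filter (fun n => n + d ∈ rough H' y X ∧ P n (n + d))).card =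
      ((both H H' d y X).filter (fun n => P n (n + d))).card := by
  congr 1
  ext n
  rw [mem_filter, mem_filter, both_iff hd]
  exact ⟨fun h => ⟨⟨h.1, h.2.1⟩, h.2.2⟩, fun h => ⟨h.1.1, h.1.2, h.2⟩⟩

open Pool.Agent.H530.Ha Pool.Agent.H530.Hz Pool.Agent.H373R2.T7 in
lemma locD {k : ℕ} {H H' : Fin k → ℤ} {d : ℕ} (h : Admissible (join H H' d)) :
    LocD k (QZ (fun _ => 1) H) (QZ (fun _ => 1) H') d := by
  intro p hp
  obtain ⟨n, hn⟩ := h p (mem_pz.1 hp).2
  have hp0 : (0 : ℤ) < p := by exact_mod_cast (mem_pz.1 hp).2.pos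
  have hs : (((n % p).toNat : ℕ) : ℤ) = n % p := Int.toNat_of_nonneg (Int.emod_nonneg _ hp0.ne')
  have key : ∀ c : ℤ, (p : ℤ) ∣ (n % p) + c → (p : ℤ) ∣ n + c := by
    intro c hc
    have h2 : n + c ≡ n % p + c [ZMOD p] := (Int.mod_modEq n p).symm.add_right _
    rw [← Int.modEq_zero_iff_dvd] at hc ⊢
    exact h2.trans hc
  refine ⟨(n % p).toNat, ?_, ?_⟩
  · rintro ⟨j, hj⟩
    rw [one_mul, hs] at hj
    have h1 := hn (Fin.castAdd k j)
    unfold join at h1
    rw [Fin.append_left] at h1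
    exact h1 (key _ hj)
  · rintro ⟨j, hj⟩
    rw [one_mul] at hj
    push_cast at hj
    rw [hs] at hj
    have h1 := hn (Fin.natAdd k j)
    unfold join at h1
    rw [Fin.append_right] at h1
    apply h1
    have e : (d : ℤ) + n % p + H' j = n % p + (d + H' j) := by ring
    rw [e] at hj
    exact key _ hj

open Classical in
/-- the theorem for all `k` -/
theorem general (k : ℕ) (hk : 1 ≤ k) : ∃ c : ℝ, 0 < c ∧ ∃ A : ℕ, 1 ≤ A ∧ ∀ K : ℕ, A ≤ K → ∀ B : ℕ, ∃ X₀ y₀ : ℕ,
    ∀ X y : ℕ, X₀ ≤ X → y₀ ≤ y → y ^ K ≤ X → ∀ H H' : Fin k → ℤ, Admissible H → Admissible H' →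
      -- the number of the `n`
      c * (X / Real.log X ^ k) ≤ (rough H y X).card ∧
      -- all additive characters
      (∀ b : ℤ, |(b : ℝ)| ≤ X * Real.log X ^ B → ∀ α : ℝ,
        ‖∑ n ∈ rough H y X, (liouville ((n : ℤ) + b) : ℂ) * Complex.exp (2 * Real.pi * Complex.I * (n * α))‖ ≤
          (1 / 2 : ℝ) ^ (K / A) * (rough H y X).card) ∧
      -- the order of magnitude for every `d`
      (∀ d : ℕ, d ≤ X → (1 / 2 : ℝ) ^ (K / A) * X ≤ (X - d : ℕ) → Admissible (join H H' d) →
        c * (((X - d : ℕ) : ℝ) / X) * (((rough H y X).card : ℝ) * (rough H' y X).card / X) ≤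
          (both H H' d y X).card) ∧
      -- independence for almost all `d`
      ∀ a b : ℤ, |(a : ℝ)| ≤ X * Real.log X ^ B → |(b : ℝ)| ≤ X * Real.log X ^ B →
        (((range X).filter (fun d : ℕ => Admissible (join H H' d) ∧ ∃ s t : Bool,
          (1 / 2 : ℝ) ^ (K / A) * (both H H' d y X).card <
            |4 * ((pattern H H' d y X a b s t).card : ℝ) - (both H H' d y X).card|)).card : ℝ) ≤
          (1 / 2 : ℝ) ^ (K / A) * X := by
  obtain ⟨c1, hc1, H1⟩ := Pool.Agent.H530.Ha.all_F k hk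
  obtain ⟨K1, hK1, H1⟩ := H1 1 one_pos
  obtain ⟨c2, hc2, A2, hA2, H2⟩ := Pool.Agent.H530.Hz.F2d k hk
  obtain ⟨A, hAL, hA1, H3⟩ := Pool.Agent.H530.Hz.F1 k hk (K1 + A2)
  refine ⟨min c1 c2, lt_min hc1 hc2, A, hA1, fun K hK B => ?_⟩
  obtain ⟨X1, y1, H1⟩ := H1 B
  obtain ⟨X2, y2, H2⟩ := H2 K (by omega) B
  obtain ⟨X3, y3, H3⟩ := H3 K hK B
  refine ⟨X1 + X2 + X3 + 1, y1 + y2 + y3 + 1, ?_⟩
  intro X y hX hy hyX H H' hH hH'
  have sH := Pool.Agent.H530.Ha.sv_QZ (adz hH)
  have sH' := Pool.Agent.H530.Ha.sv_QZ (adz hH')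
  have hXr : (1 : ℝ) ≤ X := by exact_mod_cast (by omega : 1 ≤ X)
  have hmono := Pool.Agent.H530.Hz.half_mono (K := K) hA2 (show A2 ≤ A by omega)
  obtain ⟨δ', hδ'⟩ : ∃ δ' : ℝ, δ' = (1 / 2 : ℝ) ^ (K / A2) := ⟨_, rfl⟩
  obtain ⟨δ, hδ⟩ : ∃ δ : ℝ, δ = (1 / 2 : ℝ) ^ (K / A) := ⟨_, rfl⟩
  have hδ0 : 0 < δ := by rw [hδ]; positivity
  have r1 := (H1 _ sH X y (by omega) (by omega) ((Nat.pow_le_pow_right (by omega) (by omega)).trans hyX)).1
  have r2 := H2 _ _ sH sH' X y (by omega) (by omega) hyX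
  have r3 := H3 _ sH X y (by omega) (by omega) hyX
  rw [← rough_eq] at r1 r2 r3
  rw [← rough_eq] at r2
  rw [← hδ', ← hδ] at hmono
  rw [← hδ'] at r2
  rw [← hδ] at r3 ⊢
  have hrep : ∀ d : ℕ, d ≤ X → ∀ P : ℕ → ℕ → Prop,
      ((Pool.Agent.H530.Hz.rep2 (rough H y X) (rough H' y X) (-1) 1 d).filter (fun t => P t.1 t.2)).card =
      ((both H H' d y X).filter (fun n => P n (n + d))).card := by
    intro d hd P
    rw [Pool.Agent.H530.Hz.rep2_dif]
    exact filter_card hd P
  have hrep0 : ∀ d : ℕ, d ≤ X → (Pool.Agent.H530.Hz.rep2 (rough H y X) (rough H' y X) (-1) 1 d).card =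
      (both H H' d y X).card := by
    intro d hd
    have := hrep d hd (fun _ _ => True)
    rwa [filter_true, filter_true] at this
  refine ⟨?_, ?_, ?_, ?_⟩
  · refine le_trans ?_ r1
    apply mul_le_mul_of_nonneg_right (min_le_left _ _)
    have : 0 ≤ Real.log (X : ℝ) := Real.log_natCast_nonneg _
    positivity
  · intro b hb α
    have h := r3 b hb α
    refine le_trans (le_of_eq ?_) h
    congr 1
    apply sum_congr rfl
    intro n _
    rw [liou_eq]
    congr 1
    unfold Pool.Agent.H807R2.Dav.ee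
    congr 1
    push_cast
    ring
  · intro d hd hdX hadm
    have h := r2.1 d hd (by
      refine le_trans ?_ hdX
      exact mul_le_mul_of_nonneg_right hmono (by linarith)) (locD hadm)
    rw [hrep0 d hd] at h
    refine le_trans ?_ h
    apply mul_le_mul_of_nonneg_right _ (by positivity)
    exact mul_le_mul_of_nonneg_right (min_le_right _ _) (by positivity)
  · intro a b ha hb
    have h := r2.2 a b ha hb
    refine le_trans ?_ (h.trans (mul_le_mul_of_nonneg_right hmono (by linarith)))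
    have hsub : (range X).filter (fun d : ℕ => Admissible (join H H' d) ∧ ∃ s t : Bool,
          δ * (both H H' d y X).card <
            |4 * ((pattern H H' d y X a b s t).card : ℝ) - (both H H' d y X).card|) ⊆
        (range X).filter (fun N : ℕ => Pool.Agent.H530.Hz.LocD k (Pool.Agent.H530.Ha.QZ (fun _ => 1) H)
          (Pool.Agent.H530.Ha.QZ (fun _ => 1) H') N ∧ ∃ s1 s2 : ℝ, (s1 = 1 ∨ s1 = -1) ∧ (s2 = 1 ∨ s2 = -1) ∧
          δ' * (Pool.Agent.H530.Hz.rep2 (rough H y X) (rough H' y X) (-1) 1 N).card <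
          |4 * Pool.Agent.H530.Hz.pat2 (Pool.Agent.H530.Hz.rep2 (rough H y X) (rough H' y X) (-1) 1 N) a b s1 s2 -
            (Pool.Agent.H530.Hz.rep2 (rough H y X) (rough H' y X) (-1) 1 N).card|) := by
      intro d hd
      rw [mem_filter, mem_range] at hd ⊢
      obtain ⟨hdX, hadm, s, t, hst⟩ := hd
      refine ⟨hdX, locD hadm, Pool.Agent.H530.Hz.sg s, Pool.Agent.H530.Hz.sg t,
        Pool.Agent.H530.Hz.sg_cases s, Pool.Agent.H530.Hz.sg_cases t, ?_⟩
      rw [Pool.Agent.H530.Hz.pat2_card]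
      have e1 : ((Pool.Agent.H530.Hz.rep2 (rough H y X) (rough H' y X) (-1) 1 d).filter
          (fun u => Pool.Agent.H530.Ha.lz ((u.1 : ℤ) + a) = Pool.Agent.H530.Hz.sg s ∧
            Pool.Agent.H530.Ha.lz ((u.2 : ℤ) + b) = Pool.Agent.H530.Hz.sg t)).card =
          ((both H H' d y X).filter (fun n : ℕ => Pool.Agent.H530.Ha.lz ((n : ℤ) + a) = Pool.Agent.H530.Hz.sg s ∧
            Pool.Agent.H530.Ha.lz (((n + d : ℕ) : ℤ) + b) = Pool.Agent.H530.Hz.sg t)).card := by
        convert hrep d hdX.le (fun n m => Pool.Agent.H530.Ha.lz ((n : ℤ) + a) = Pool.Agent.H530.Hz.sg s ∧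
          Pool.Agent.H530.Ha.lz ((m : ℤ) + b) = Pool.Agent.H530.Hz.sg t)
      have e2 : (both H H' d y X).filter (fun n : ℕ => Pool.Agent.H530.Ha.lz ((n : ℤ) + a) = Pool.Agent.H530.Hz.sg s ∧
        Pool.Agent.H530.Ha.lz (((n + d : ℕ) : ℤ) + b) = Pool.Agent.H530.Hz.sg t) = pattern H H' d y X a b s t := by
        unfold pattern
        apply filter_congr
        intro n _
        unfold Par
        rw [Pool.Agent.H530.Hz.par_iff, Pool.Agent.H530.Hz.par_iff, Nat.cast_add]
      rw [e1, e2, hrep0 d hdX.le]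
      refine lt_of_le_of_lt ?_ hst
      exact mul_le_mul_of_nonneg_right hmono (Nat.cast_nonneg _)
    exact_mod_cast card_le_card hsub

/-- the pattern of the triplets `p`, `p + 2`, `p + 6` -/
theorem adm1 : Admissible ![(0 : ℤ), 2, 6] := by
  intro p hp
  by_cases h : p = 3 ∨ p = 7
  · refine ⟨2, fun i => ?_⟩
    rcases h with rfl | rfl <;> fin_cases i <;> norm_num
  · push Not at h
    have h1 : ¬ (p : ℤ) ∣ 1 := fun hd => hp.one_lt.ne' (Nat.dvd_one.1 (by exact_mod_cast hd))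
    have h3 : ¬ (p : ℤ) ∣ 3 := fun hd =>
      h.1 ((Nat.prime_dvd_prime_iff_eq hp Nat.prime_three).1 (by exact_mod_cast hd))
    have h7 : ¬ (p : ℤ) ∣ 7 := fun hd =>
      h.2 ((Nat.prime_dvd_prime_iff_eq hp (by norm_num)).1 (by exact_mod_cast hd))
    refine ⟨1, fun i => ?_⟩
    fin_cases i
    · exact h1
    · exact h3
    · exact h7

/-- the pattern of the triplets `p`, `p + 4`, `p + 6` -/
theorem adm2 : Admissible ![(0 : ℤ), 4, 6] := by
  intro p hp
  by_cases h : p = 5 ∨ p = 7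
  · refine ⟨2, fun i => ?_⟩
    rcases h with rfl | rfl <;> fin_cases i <;> norm_num
  · push Not at h
    have h1 : ¬ (p : ℤ) ∣ 1 := fun hd => hp.one_lt.ne' (Nat.dvd_one.1 (by exact_mod_cast hd))
    have h5 : ¬ (p : ℤ) ∣ 5 := fun hd =>
      h.1 ((Nat.prime_dvd_prime_iff_eq hp Nat.prime_five).1 (by exact_mod_cast hd))
    have h7 : ¬ (p : ℤ) ∣ 7 := fun hd =>
      h.2 ((Nat.prime_dvd_prime_iff_eq hp (by norm_num)).1 (by exact_mod_cast hd))
    refine ⟨1, fun i => ?_⟩
    fin_cases i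
    · exact h1
    · exact h5
    · exact h7

open Classical in
/-- **Pairs of members of almost prime tuples have independent parities, for almost all distances**;
the patterns `(0, 2, 6)` and `(0, 4, 6)` of the prime triplets are admissible. -/
theorem result :
    (∀ k : ℕ, 1 ≤ k → ∃ c : ℝ, 0 < c ∧ ∃ A : ℕ, 1 ≤ A ∧ ∀ K : ℕ, A ≤ K → ∀ B : ℕ, ∃ X₀ y₀ : ℕ,
    ∀ X y : ℕ, X₀ ≤ X → y₀ ≤ y → y ^ K ≤ X → ∀ H H' : Fin k → ℤ, Admissible H → Admissible H' →
      -- the number of the `n`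
      c * (X / Real.log X ^ k) ≤ (rough H y X).card ∧
      -- all additive characters
      (∀ b : ℤ, |(b : ℝ)| ≤ X * Real.log X ^ B → ∀ α : ℝ,
        ‖∑ n ∈ rough H y X, (liouville ((n : ℤ) + b) : ℂ) * Complex.exp (2 * Real.pi * Complex.I * (n * α))‖ ≤
          (1 / 2 : ℝ) ^ (K / A) * (rough H y X).card) ∧
      -- the order of magnitude for every `d`
      (∀ d : ℕ, d ≤ X → (1 / 2 : ℝ) ^ (K / A) * X ≤ (X - d : ℕ) → Admissible (join H H' d) →
        c * (((X - d : ℕ) : ℝ) / X) * (((rough H y X).card : ℝ) * (rough H' y X).card / X) ≤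
          (both H H' d y X).card) ∧
      -- independence for almost all `d`
      ∀ a b : ℤ, |(a : ℝ)| ≤ X * Real.log X ^ B → |(b : ℝ)| ≤ X * Real.log X ^ B →
        (((range X).filter (fun d : ℕ => Admissible (join H H' d) ∧ ∃ s t : Bool,
          (1 / 2 : ℝ) ^ (K / A) * (both H H' d y X).card <
            |4 * ((pattern H H' d y X a b s t).card : ℝ) - (both H H' d y X).card|)).card : ℝ) ≤
          (1 / 2 : ℝ) ^ (K / A) * X) ∧
    Admissible ![(0 : ℤ), 2, 6] ∧ Admissible ![(0 : ℤ), 4, 6] :=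
  ⟨general, adm1, adm2⟩

end Pool.Agent.Results.MP_dddec0_nt.IndependentParities
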