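import Mathlib
import Pool.Agent.H76.TB.A22
import Pool.Agent.H76.TB.A23

/-!
# Ternary linear equations in primes all of whose tuple companions are rough

Vinogradov's theorem for primes `p` such that `k` given linear functions of `p` have no small prime factor,
with the singular series, and its consequence for the shapes `(p, p+2, p+6)`, `(p, p+4, p+6)` of the prime triplets.
-/

set_option autoImplicit false

open Finset

namespace Pool.Agent.Results.MP_dddec0_nt.TernaryEquationsInTuplePrimes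

/-- the solutions of `c₁ n₀ + c₂ n₁ + n₂ = m` in integers `1 ≤ nᵢ ≤ N` -/
def Sol (c₁ c₂ m : ℤ) (N : ℕ) : Finset (Fin 3 → ℕ) :=
  (Fintype.piFinset fun _ : Fin 3 => Icc 1 N).filter (fun n => c₁ * n 0 + c₂ * n 1 + n 2 = m)

/-- the solutions in primes `nᵢ` for which no value `a i j * nᵢ + b i j` has a prime factor `q ≤ y` -/
def PrimeSol {k : ℕ} (c₁ c₂ m : ℤ) (N y : ℕ) (a b : Fin 3 → Fin k → ℤ) : Finset (Fin 3 → ℕ) :=
  (Sol c₁ c₂ m N).filter (fun n => ∀ i, (n i).Prime ∧ ∀ q ∈ (range (y + 1)).filter Nat.Prime, ∀ j, ¬ (q : ℤ) ∣ a i j * n i + b i j)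

/-- `p` divides neither `x` nor one of the values `a i j * x + b i j` -/
def Free {k : ℕ} (a b : Fin 3 → Fin k → ℤ) (i : Fin 3) (p : ℕ) (x : ℤ) : Prop :=
  ¬ (p : ℤ) ∣ x ∧ ∀ j, ¬ (p : ℤ) ∣ a i j * x + b i j

instance {k : ℕ} (a b : Fin 3 → Fin k → ℤ) (i : Fin 3) (p : ℕ) : DecidablePred (Free a b i p) := by
  intro x; unfold Free; infer_instance

/-- the number of solutions `(x, y, m - c₁ x - c₂ y)` modulo `p` in admissible classes -/
def loc {k : ℕ} (c₁ c₂ m : ℤ) (a b : Fin 3 → Fin k → ℤ) (p : ℕ) : ℕ :=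
  ((range p ×ˢ range p).filter (fun t => Free a b 0 p (t.1 : ℤ) ∧ Free a b 1 p (t.2 : ℤ) ∧ Free a b 2 p (m - c₁ * t.1 - c₂ * t.2))).card

/-- the expected value: the number of the solutions times the product of the local densities at `p ≤ y` -/
noncomputable def expected {k : ℕ} (c₁ c₂ m : ℤ) (N y : ℕ) (a b : Fin 3 → Fin k → ℤ) : ℝ :=
  (Sol c₁ c₂ m N).card * ∏ p ∈ (range (y + 1)).filter Nat.Prime, ((1 - 1 / (p : ℝ))⁻¹) ^ 3 * ((loc c₁ c₂ m a b p : ℝ) / p ^ 2)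

/-- `v` is not zero and has at most `r` prime factors (with multiplicity), all larger than `w` -/
def AlmostPrime (r : ℕ) (w : ℝ) (v : ℤ) : Prop :=
  v ≠ 0 ∧ v.natAbs.primeFactorsList.length ≤ r ∧ ∀ q ∈ v.natAbs.primeFactorsList, w < q

/-- the set `T` of the page, with `prime` replaced by `almost prime` at `p + 6` and at `p + 2` or `p + 4` -/
def AlmostTriplet (r : ℕ) (w : ℝ) (p : ℕ) : Prop :=
  p.Prime ∧ AlmostPrime r w (p + 6) ∧ (AlmostPrime r w (p + 2) ∨ AlmostPrime r w (p + 4))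

/-- the set `T` of the page -/
def Triplet (p : ℕ) : Prop := p.Prime ∧ (p + 6).Prime ∧ ((p + 2).Prime ∨ (p + 4).Prime)

lemma Sol_card (c₁ c₂ m : ℤ) (N : ℕ) : (Sol c₁ c₂ m N).card = (Pool.Agent.H76.TB.TG c₁ c₂ m N).card := by
  refine card_bij' (fun n _ => (n 0, n 1)) (fun t _ => ![t.1, t.2, Pool.Agent.H76.TB.n3 c₁ c₂ m t]) ?_ ?_ ?_ ?_
  · intro n hn
    unfold Sol at hn
    rw [mem_filter, Fintype.mem_piFinset] at hn
    obtain ⟨h1, h2⟩ := hn
    have g0 := mem_Icc.1 (h1 0)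
    have g1 := mem_Icc.1 (h1 1)
    have g2 := mem_Icc.1 (h1 2)
    rw [Pool.Agent.H76.TB.mem_TG]
    have hm : m - c₁ * (n 0 : ℤ) - c₂ * (n 1 : ℤ) = n 2 := by linarith
    refine ⟨g0, g1, ?_⟩
    simp only
    rw [hm]
    exact_mod_cast g2
  · intro t ht
    rw [Pool.Agent.H76.TB.mem_TG] at ht
    obtain ⟨g0, g1, g2, g3⟩ := ht
    have e : ((Pool.Agent.H76.TB.n3 c₁ c₂ m t : ℕ) : ℤ) = m - c₁ * t.1 - c₂ * t.2 := by
      unfold Pool.Agent.H76.TB.n3
      exact Int.toNat_of_nonneg (by linarith)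
    unfold Sol
    rw [mem_filter, Fintype.mem_piFinset]
    refine ⟨fun i => ?_, ?_⟩
    · fin_cases i
      · exact mem_Icc.2 g0
      · exact mem_Icc.2 g1
      · rw [mem_Icc]
        show 1 ≤ Pool.Agent.H76.TB.n3 c₁ c₂ m t ∧ Pool.Agent.H76.TB.n3 c₁ c₂ m t ≤ N
        zify
        rw [e]
        exact ⟨g2, g3⟩
    · show c₁ * (t.1 : ℤ) + c₂ * (t.2 : ℤ) + ((Pool.Agent.H76.TB.n3 c₁ c₂ m t : ℕ) : ℤ) = m
      rw [e]; ring
  · intro n hn
    unfold Sol at hn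
    rw [mem_filter, Fintype.mem_piFinset] at hn
    obtain ⟨h1, h2⟩ := hn
    funext i
    fin_cases i
    · rfl
    · rfl
    · show Pool.Agent.H76.TB.n3 c₁ c₂ m (n 0, n 1) = n 2
      unfold Pool.Agent.H76.TB.n3
      have hm : m - c₁ * (n 0 : ℤ) - c₂ * (n 1 : ℤ) = n 2 := by linarith
      simp only
      rw [hm]; simp
  · intro t _
    rfl

lemma PrimeSol_eq {k : ℕ} (c₁ c₂ m : ℤ) (N y : ℕ) (a b : Fin 3 → Fin k → ℤ) :
    PrimeSol c₁ c₂ m N y a b = Pool.Agent.H76.TB.Reps3 c₁ c₂ m N y a b := by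
  ext n
  unfold PrimeSol Sol Pool.Agent.H76.TB.Reps3
  rw [mem_filter, mem_filter, mem_filter, Fintype.mem_piFinset, Fintype.mem_piFinset]
  constructor
  · rintro ⟨⟨h1, h2⟩, h3⟩
    exact ⟨fun i => by have := mem_Icc.1 (h1 i); rw [mem_range]; omega, h2, h3⟩
  · rintro ⟨h1, h2, h3⟩
    exact ⟨⟨fun i => by
      have := mem_range.1 (h1 i)
      exact mem_Icc.2 ⟨(h3 i).1.one_lt.le, by omega⟩, h2⟩, h3⟩

lemma loc_eq {k : ℕ} (c₁ c₂ m : ℤ) (a b : Fin 3 → Fin k → ℤ) (p : ℕ) : loc c₁ c₂ m a b p = Pool.Agent.H76.TB.loc3 c₁ c₂ m a b p := by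
  unfold loc Pool.Agent.H76.TB.loc3
  congr 1

lemma expected_eq {k : ℕ} (c₁ c₂ m : ℤ) (N y : ℕ) (a b : Fin 3 → Fin k → ℤ) :
    expected c₁ c₂ m N y a b = ((Pool.Agent.H76.TB.TG c₁ c₂ m N).card : ℝ) * ∏ p ∈ (range (y + 1)).filter Nat.Prime,
      ((1 - 1 / (p : ℝ))⁻¹) ^ 3 * ((Pool.Agent.H76.TB.loc3 c₁ c₂ m a b p : ℝ) / p ^ 2) := by
  unfold expected
  rw [Sol_card]
  congr 1

/-- **Ternary equations in tuple primes.**
(1) Asymptotic formula. Let `c₁, c₂` be coprime and not zero. For every `k` and `A` there are `B, N0` such that for `N ≥ N0`,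
`s ≥ B`, `(log N)^B ≤ y ≤ N^(1/(256 s))`, all `m` for which the equation `c₁ n₀ + c₂ n₁ + n₂ = m` has at least `N²/16` solutions
in `[1, N]`, and all `3 k` linear forms `a i j * x + b i j` with arbitrary integers `a i j`, with `b i j ≠ 0` and
`|∏ j, b i j| ≤ log N`, without a local obstruction: the weighted number of the solutions in primes all of whose `3 k` values are
free of prime factors `≤ y` is the expected one, up to a factor `1 + O(256/2^s + (log N)^(-A))`; and the expected one is at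
least `N²/(log N)^(6k+7)`.
(2) If moreover `|a i j| ≤ N`, at least `N²/(log N)^(6k+11)` solutions in primes have all their `3 k` values almost prime
(at most `r` prime factors, all `> N^δ`; `r, δ` depend only on `k, c₁, c₂`).
(3) Every large odd `N`, not `≡ 4, 8` modulo `15`, is in at least `N²/(log N)^23` ways a sum of three primes of the almost prime
version of the set `T` of the page.
(4) The two classes cannot be reached: a sum of three elements `> 5` of `T` is odd and not `≡ 4, 8` modulo `15`. -/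
theorem result :
    (∀ (k A : ℕ) (c₁ c₂ : ℤ), c₁ ≠ 0 → c₂ ≠ 0 → IsCoprime c₁ c₂ → ∃ B N0 : ℕ, ∀ N : ℕ, N0 ≤ N →
      ∀ s y : ℕ, B ≤ s → y ^ (256 * s) ≤ N → Real.log N ^ B ≤ y →
      ∀ (m : ℤ) (a b : Fin 3 → Fin k → ℤ), (∀ i j, b i j ≠ 0) → (∀ i, ((∏ j, b i j).natAbs : ℝ) ≤ Real.log N) →
      (N : ℝ) ^ 2 / 16 ≤ (Sol c₁ c₂ m N).card → (∀ p : ℕ, p.Prime → 0 < loc c₁ c₂ m a b p) →
      |∑ n ∈ PrimeSol c₁ c₂ m N y a b, ∏ i, Real.log (n i) - expected c₁ c₂ m N y a b| ≤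
        (256 / 2 ^ s + 1 / Real.log N ^ A) * expected c₁ c₂ m N y a b ∧
      (N : ℝ) ^ 2 / Real.log N ^ (6 * k + 7) ≤ expected c₁ c₂ m N y a b) ∧
    (∀ (k : ℕ) (c₁ c₂ : ℤ), c₁ ≠ 0 → c₂ ≠ 0 → IsCoprime c₁ c₂ → ∃ (r N0 : ℕ) (δ : ℝ), 0 < δ ∧ ∀ N : ℕ, N0 ≤ N →
      ∀ (m : ℤ) (a b : Fin 3 → Fin k → ℤ), (∀ i j, b i j ≠ 0) → (∀ i, ((∏ j, b i j).natAbs : ℝ) ≤ Real.log N) →
      (∀ i j, (a i j).natAbs ≤ N) →
      (N : ℝ) ^ 2 / 16 ≤ (Sol c₁ c₂ m N).card → (∀ p : ℕ, p.Prime → 0 < loc c₁ c₂ m a b p) →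
      ∃ R : Finset (Fin 3 → ℕ), R ⊆ Sol c₁ c₂ m N ∧
        (∀ n ∈ R, ∀ i, (n i).Prime ∧ ∀ j, AlmostPrime r ((N : ℝ) ^ δ) (a i j * n i + b i j)) ∧
        (N : ℝ) ^ 2 / Real.log N ^ (6 * k + 11) ≤ R.card) ∧
    (∃ (r N0 : ℕ) (δ : ℝ), 0 < δ ∧ ∀ N : ℕ, N0 ≤ N → N % 2 = 1 → N % 15 ≠ 4 → N % 15 ≠ 8 →
      ∃ R : Finset (Fin 3 → ℕ), (∀ n ∈ R, n 0 + n 1 + n 2 = N ∧ ∀ i, AlmostTriplet r ((N : ℝ) ^ δ) (n i)) ∧
        (N : ℝ) ^ 2 / Real.log N ^ 23 ≤ R.card) ∧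
    (∀ x y z : ℕ, Triplet x → Triplet y → Triplet z → 5 < x → 5 < y → 5 < z →
      (x + y + z) % 2 = 1 ∧ (x + y + z) % 15 ≠ 4 ∧ (x + y + z) % 15 ≠ 8) := by
  refine ⟨?_, ?_, ?_, ?_⟩
  · intro k A c₁ c₂ hc₁ hc₂ hcop
    obtain ⟨B, N0, h⟩ := Pool.Agent.H76.TB.gen3 k A c₁ c₂ hc₁ hc₂ hcop
    refine ⟨B, N0, fun N hN s y hs hys hy m a b hb hbN hS hloc => ?_⟩
    rw [expected_eq, PrimeSol_eq]
    have := h N hN s y hs hys hy m a b hb hbN (by rwa [Sol_card] at hS) (fun p hp => by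
      have := hloc p hp
      rwa [loc_eq] at this)
    exact this
  · intro k c₁ c₂ hc₁ hc₂ hcop
    obtain ⟨r, N0, δ, hδ, h⟩ := Pool.Agent.H76.TB.almost3 k c₁ c₂ hc₁ hc₂ hcop
    refine ⟨r, N0, δ, hδ, fun N hN m a b hb hbN ha hS hloc => ?_⟩
    obtain ⟨R, h1, h2⟩ := h N hN m a b hb hbN ha (by rwa [Sol_card] at hS) (fun p hp => by
      have := hloc p hp
      rwa [loc_eq] at this)
    refine ⟨R, fun n hn => ?_, fun n hn i => ?_, h2⟩
    · obtain ⟨g1, g2, g3⟩ := h1 n hn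
      unfold Sol
      rw [mem_filter, Fintype.mem_piFinset]
      exact ⟨fun i => mem_Icc.2 (g1 i), g2⟩
    · obtain ⟨g1, g2, g3⟩ := h1 n hn
      exact g3 i
  · obtain ⟨r, N0, δ, hδ, h⟩ := Pool.Agent.H76.TB.almost3 2 1 1 one_ne_zero one_ne_zero isCoprime_one_left
    obtain ⟨m2, h2⟩ := Pool.Agent.H373R2.T7.ev_L' 24
    refine ⟨r, max N0 (max m2 16), δ, hδ, fun N hN hodd h4 h8 => ?_⟩
    have hL := h2 N (le_trans (le_trans (le_max_left _ _) (le_max_right _ _)) hN)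
    have hN16 : 16 ≤ N := le_trans (le_trans (le_max_right _ _) (le_max_right _ _)) hN
    have hNr : (16 : ℝ) ≤ N := by exact_mod_cast hN16
    obtain ⟨t, ht⟩ := Pool.Agent.H76.TB.choose_shape N hodd h4 h8
    have hcard := Pool.Agent.H76.TB.TG_card N (by omega)
    obtain ⟨R, g1, g2⟩ := h N (le_trans (le_max_left _ _) hN) N Pool.Agent.H76.TB.one3 (Pool.Agent.H76.TB.shp t)
      (fun i j => by unfold Pool.Agent.H76.TB.shp; split_ifs <;> norm_num)
      (fun i => by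
        refine le_trans ?_ hL
        rw [Fin.prod_univ_two]
        unfold Pool.Agent.H76.TB.shp
        cases t i <;> norm_num)
      (fun i j => by show (1 : ℤ).natAbs ≤ N; simp; omega)
      (by rw [hcard]; nlinarith) ht
    refine ⟨R, fun n hn => ?_, g2⟩
    obtain ⟨b1, b2, b3⟩ := g1 n hn
    refine ⟨?_, fun i => ?_⟩
    · have : ((n 0 + n 1 + n 2 : ℕ) : ℤ) = N := by push_cast; linarith
      exact_mod_cast this
    · obtain ⟨c1, c2⟩ := b3 i
      have d0 := c2 0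
      have d1 := c2 1
      have e1 : Pool.Agent.H76.TB.one3 i 1 * (n i : ℤ) + Pool.Agent.H76.TB.shp t i 1 = n i + 6 := by
        unfold Pool.Agent.H76.TB.one3 Pool.Agent.H76.TB.shp
        simp
      have e0 : Pool.Agent.H76.TB.one3 i 0 * (n i : ℤ) + Pool.Agent.H76.TB.shp t i 0 = n i + (if t i then 2 else 4) := by
        unfold Pool.Agent.H76.TB.one3 Pool.Agent.H76.TB.shp
        simp
      rw [e1] at d1
      rw [e0] at d0
      refine ⟨c1, d1, ?_⟩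
      by_cases hti : t i = true
      · rw [if_pos hti] at d0
        exact Or.inl d0
      · rw [if_neg hti] at d0
        exact Or.inr d0
  · intro x y z hx hy hz h5x h5y h5z
    exact Pool.Agent.H76.TB.sharp x y z h5x h5y h5z hx hy hz

end Pool.Agent.Results.MP_dddec0_nt.TernaryEquationsInTuplePrimes
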