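import Pool.Agent.H563.TG.UniJ
import Pool.Agent.H563.TG.Sys
import Pool.Agent.H563.PL.Fin

/-!
# One thin set of arguments for all admissible systems of linear forms, and triplets

For every `J` there is a fixed set `S` of integers with at most `C (log x) ^ (J + 1)` elements up to `x` such that for
every large `X` and EVERY system of `J` linear forms `a_i s + b_i` with integer coefficients `|a_i|, |b_i| ≤ X` and
without fixed prime divisor, at least `B log X` of the `s ∈ S`, `s ≤ X ^ ε`, make all the forms almost prime.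
In particular every interval `(N, N + N ^ ε)` contains triplets `n, n + 2, n + 6` and `n, n + 4, n + 6` of almost
primes with `n - N ∈ S`.
-/

set_option autoImplicit false

namespace Pool.Agent.Results.MP_dddec0_nt.ThinSetForAllSystems

open Finset Filter
open Pool.Agent.H563.TG (Box mem_Box GS GS_card hitS hupS hlowS univJ poly poly_eval)
open Pool.Agent.H563.PL (roots mem_roots NoFixed)

/-- The system of the linear forms `a i * s + b i` is admissible: for every prime `p` there is an integer `n` such that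
`p` divides none of the values `a i * n + b i`. -/
def Admissible {J : ℕ} (a b : Fin J → ℤ) : Prop :=
  ∀ p : ℕ, p.Prime → ∃ n : ℤ, ∀ i, ¬ (p : ℤ) ∣ a i * n + b i

/-- `v` has at most `r` prime factors (counted with multiplicity), all of them larger than `w`. -/
def AlmostPrime (r : ℕ) (w : ℝ) (v : ℤ) : Prop :=
  v ≠ 0 ∧ v.natAbs.primeFactorsList.length ≤ r ∧ ∀ p : ℕ, p.Prime → (p : ℤ) ∣ v → w < p

/-- `S` has at most `C (log x) ^ E` elements up to `x`. -/
def Thin (E : ℕ) (C : ℝ) (S : Set ℕ) : Prop :=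
  ∀ x : ℕ, 2 ≤ x → ({s | s ∈ S ∧ s ≤ x}.ncard : ℝ) ≤ C * Real.log x ^ E

/-- the polynomial has no fixed prime divisor -/
lemma noFixed {J : ℕ} {a b : Fin J → ℤ} (h : Admissible a b) : NoFixed (poly (fun i => (a i, b i))) := by
  intro p hp
  obtain ⟨n, hn⟩ := h p hp
  have hp0 : (0 : ℤ) < p := by exact_mod_cast hp.pos
  obtain ⟨c, hc⟩ := Int.eq_ofNat_of_zero_le (Int.emod_nonneg n hp0.ne')
  have hcp : c < p := by
    have := Int.emod_lt_of_pos n hp0
    rw [hc] at this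
    exact_mod_cast this
  have hsub : roots (poly (fun i => (a i, b i))) p ⊆ (range p).erase c := by
    intro m hm
    rw [mem_erase, mem_range]
    refine ⟨?_, (mem_roots.1 hm).1⟩
    rintro rfl
    have h1 := (mem_roots.1 hm).2
    rw [poly_eval] at h1
    obtain ⟨i, -, hi⟩ := (Prime.dvd_finsetProd_iff (Nat.prime_iff_prime_int.1 hp) _).1 h1
    apply hn i
    have h2 : (p : ℤ) ∣ n - (m : ℤ) := by
      have h3 : n % (p : ℤ) = (m : ℤ) := hc
      rw [← h3]
      exact Int.dvd_self_sub_emod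
    have h4 : a i * n + b i = (a i * m + b i) + a i * (n - m) := by ring
    rw [h4]
    exact dvd_add hi (h2.mul_left _)
  calc (roots (poly (fun i => (a i, b i))) p).card ≤ ((range p).erase c).card := card_le_card hsub
    _ = p - 1 := by rw [card_erase_of_mem (mem_range.2 hcp), card_range]
    _ < p := by have := hp.pos; omega

/-- the patterns of the triplets are admissible -/
lemma triplet (g : ℕ) (hg : g = 2 ∨ g = 4) (p : ℕ) (hp : p.Prime) :
    ∃ x : ℤ, ¬ (p : ℤ) ∣ x ∧ ¬ (p : ℤ) ∣ x + (g : ℤ) ∧ ¬ (p : ℤ) ∣ x + 6 := by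
  have hp2 := hp.two_le
  rcases Nat.lt_or_ge p 8 with h | h
  · interval_cases p
    · rcases hg with rfl | rfl
      · exact ⟨1, by norm_num, by norm_num, by norm_num⟩
      · exact ⟨1, by norm_num, by norm_num, by norm_num⟩
    · rcases hg with rfl | rfl
      · exact ⟨2, by norm_num, by norm_num, by norm_num⟩
      · exact ⟨1, by norm_num, by norm_num, by norm_num⟩
    · exact absurd hp (by norm_num)
    · rcases hg with rfl | rfl
      · exact ⟨1, by norm_num, by norm_num, by norm_num⟩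
      · exact ⟨2, by norm_num, by norm_num, by norm_num⟩
    · exact absurd hp (by norm_num)
    · rcases hg with rfl | rfl
      · exact ⟨2, by norm_num, by norm_num, by norm_num⟩
      · exact ⟨2, by norm_num, by norm_num, by norm_num⟩
  · refine ⟨1, ?_, ?_, ?_⟩
    · intro hd
      have := Int.le_of_dvd (by norm_num) hd
      omega
    · intro hd
      have := Int.le_of_dvd (by omega) hd
      omega
    · intro hd
      have := Int.le_of_dvd (by norm_num) hd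
      omega

theorem all_systems (J : ℕ) (hJ : 1 ≤ J) (ε : ℝ) (hε : 0 < ε) (hε1 : ε ≤ 1) :
    ∃ r : ℕ, ∃ δ : ℝ, 0 < δ ∧ ∀ B : ℝ, ∃ C : ℝ, 0 < C ∧ ∃ S : Set ℕ, Thin (J + 1) C S ∧
      ∃ X₀ : ℕ, ∀ X : ℕ, X₀ ≤ X → ∀ a b : Fin J → ℤ, (∀ i, |a i| ≤ X ∧ |b i| ≤ X) → Admissible a b →
        ∃ H : Finset ℕ, B * Real.log X ≤ H.card ∧
          ∀ s ∈ H, s ∈ S ∧ 2 ≤ s ∧ (s : ℝ) ≤ (X : ℝ) ^ ε ∧ ∀ i, AlmostPrime r ((X : ℝ) ^ δ) (a i * s + b i) := by
  classical
  obtain ⟨κ₀, hκ₀, hκ₁, hlow⟩ := hlowS J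
  obtain ⟨θ, hθ⟩ : ∃ θ : ℝ, θ = ε / 4 := ⟨_, rfl⟩
  have hθ0 : 0 < θ := by rw [hθ]; positivity
  obtain ⟨η, hη⟩ : ∃ η : ℝ, η = ε / 2 := ⟨_, rfl⟩
  obtain ⟨κ, hκ⟩ : ∃ κ : ℝ, κ = κ₀ * θ := ⟨_, rfl⟩
  have hκ0 : 0 < κ := by rw [hκ]; positivity
  refine ⟨⌈((3 : ℕ) : ℝ) / κ⌉₊, κ, hκ0, fun B => ?_⟩
  obtain ⟨δ, hδ, m₁, hlow'⟩ := hlow θ hθ0
  obtain ⟨K, hK, m₁', hup⟩ := hupS J κ hκ0
  have h144 : (1 : ℝ) ≤ 144 ^ J := one_le_pow₀ (by norm_num)
  obtain ⟨C, hC, S, hS1, hS2, m₂, hm₂⟩ := univJ (θ := θ) (η := η) (W := 144 ^ J) (δ := δ) (K := K) J hJ hθ0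
    (by rw [hθ, hη]; linarith) (by rw [hη]; linarith) h144 hδ hK (hitS J κ) (GS J) (max (max m₁ m₁') 1)
    (fun m hm => GS_card J m ((le_max_right _ _).trans hm)) (by
      intro m hm n hn1 hn2 N hN Q hQ
      refine hlow' m (((le_max_left _ _).trans (le_max_left _ _)).trans hm) n hn1 ?_ N hN Q (by rwa [← hκ])
      have h1 : (n : ℝ) ≤ m := by
        refine hn2.trans ?_
        have : (0 : ℝ) ≤ m := Nat.cast_nonneg _
        rw [hη]
        nlinarith
      exact_mod_cast h1) (by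
      intro m hm q V hV hVq
      exact hup m (((le_max_right _ _).trans (le_max_left _ _)).trans hm) q V hV hVq) (2 * (|B| + 1)) (by positivity)
  refine ⟨C, hC, S, hS2, ?_⟩
  have ev1 := (tendsto_rpow_atTop (show 0 < η by rw [hη]; positivity)).eventually (eventually_ge_atTop (4 : ℝ))
  have ev2 := (tendsto_rpow_atTop hκ0).eventually (eventually_ge_atTop (2 : ℝ))
  obtain ⟨x₀, hx₀⟩ := eventually_atTop.1 (ev1.and ev2)
  refine ⟨4 ^ m₂ + ⌈x₀⌉₊ + 2, ?_⟩
  intro X hX a b hab hadm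
  have h4pos : 0 < 4 ^ m₂ := by positivity
  have hX2 : 2 ≤ X := by omega
  have hXr : (2 : ℝ) ≤ X := by exact_mod_cast hX2
  obtain ⟨hpX, hpκ⟩ := hx₀ X ((Nat.le_ceil _).trans (by exact_mod_cast (by omega : ⌈x₀⌉₊ ≤ X)))
  obtain ⟨m, hm⟩ : ∃ m, m = Nat.log 4 (4 * X) := ⟨_, rfl⟩
  have e1 : 4 ^ m ≤ 4 * X := by
    rw [hm]
    exact Nat.pow_log_le_self 4 (by omega)
  have e2 : 4 * X < 4 ^ (m + 1) := by
    rw [hm]
    exact Nat.lt_pow_succ_log_self (by norm_num) _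
  have e3 : X < 4 ^ m := by
    rw [pow_succ] at e2
    omega
  have hmm₂ : m₂ < m := by
    by_contra hcon
    push Not at hcon
    have : 4 ^ m ≤ 4 ^ m₂ := Nat.pow_le_pow_right (by norm_num) hcon
    omega
  have hN : Nat.pair m (Encodable.encode (fun i => (a i, b i) : Fin J → ℤ × ℤ)) ∈ GS J m := by
    unfold GS
    rw [mem_image]
    refine ⟨fun i => (a i, b i), ?_, rfl⟩
    rw [mem_filter, mem_Box]
    refine ⟨?_, noFixed hadm⟩
    intro i
    have e4 : (X : ℤ) ≤ 4 ^ m := by exact_mod_cast e3.le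
    exact ⟨(hab i).1.trans e4, (hab i).2.trans e4⟩
  obtain ⟨H, hH1, hH2⟩ := hm₂ m hmm₂.le _ hN
  refine ⟨H, le_trans ?_ hH2, ?_⟩
  · have h1 : (X : ℝ) ≤ 4 ^ m := by exact_mod_cast e3.le
    have h2 := Real.log_le_log (by linarith) h1
    rw [Real.log_pow] at h2
    have hlog4 : Real.log 4 ≤ 2 := by
      rw [show (4 : ℝ) = 2 ^ 2 by norm_num, Real.log_pow]
      have := Real.log_two_lt_d9
      push_cast
      linarith
    have hm0 : (0 : ℝ) ≤ m := Nat.cast_nonneg _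
    have h3 : Real.log X ≤ 2 * m := by nlinarith
    have h4 : 0 ≤ Real.log X := Real.log_nonneg (by linarith)
    calc B * Real.log X ≤ (|B| + 1) * Real.log X := by
          apply mul_le_mul_of_nonneg_right _ h4
          linarith [le_abs_self B]
      _ ≤ (|B| + 1) * (2 * m) := mul_le_mul_of_nonneg_left h3 (by positivity)
      _ = 2 * (|B| + 1) * m := by ring
  · intro s hs
    obtain ⟨g1, g2, g3⟩ := hH1 s hs
    have hs2 := hS1 s g1
    have e5 : (4 : ℝ) ^ (m : ℝ) ≤ 4 * X := by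
      rw [Real.rpow_natCast]
      exact_mod_cast e1
    have hη0 : 0 < η := by rw [hη]; positivity
    have hsX : (s : ℝ) ≤ (X : ℝ) ^ ε := by
      have h2 : (4 : ℝ) ^ (η * m) ≤ (4 * (X : ℝ)) ^ η := by
        calc (4 : ℝ) ^ (η * m) = ((4 : ℝ) ^ (m : ℝ)) ^ η := by
              rw [← Real.rpow_mul (by norm_num), mul_comm]
          _ ≤ (4 * (X : ℝ)) ^ η := Real.rpow_le_rpow (by positivity) e5 hη0.le
      have h3 : (4 : ℝ) ^ η ≤ 4 := by
        calc (4 : ℝ) ^ η ≤ (4 : ℝ) ^ (1 : ℝ) := Real.rpow_le_rpow_of_exponent_le (by norm_num) (by rw [hη]; linarith)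
          _ = 4 := Real.rpow_one _
      rw [Real.mul_rpow (by norm_num) (by linarith)] at h2
      have h4 : (X : ℝ) ^ ε = (X : ℝ) ^ η * (X : ℝ) ^ η := by
        rw [← Real.rpow_add (by linarith)]
        congr 1
        rw [hη]
        ring
      rw [h4]
      have h6 : (0 : ℝ) ≤ s := Nat.cast_nonneg _
      have h7 : 0 < (X : ℝ) ^ η := by linarith
      nlinarith
    refine ⟨g1, hs2, hsX, ?_⟩
    intro i
    have hXκ : (X : ℝ) ^ κ ≤ (4 : ℝ) ^ (κ * m) := by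
      have h1 : (X : ℝ) ≤ (4 : ℝ) ^ (m : ℝ) := by
        rw [Real.rpow_natCast]
        exact_mod_cast e3.le
      calc (X : ℝ) ^ κ ≤ ((4 : ℝ) ^ (m : ℝ)) ^ κ := Real.rpow_le_rpow (by linarith) h1 hκ0.le
        _ = (4 : ℝ) ^ (κ * m) := by rw [← Real.rpow_mul (by norm_num), mul_comm]
    have hrough : ∀ p : ℕ, p.Prime → (p : ℤ) ∣ a i * s + b i → (X : ℝ) ^ κ < p := by
      intro p hp hdvd
      by_contra hcon
      push Not at hcon
      refine g3 (fun i => (a i, b i)) (by rw [Nat.unpair_pair]) i p hp ?_ hdvd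
      rw [Nat.unpair_pair]
      exact hcon.trans hXκ
    have hne : a i * s + b i ≠ 0 := by
      intro h0
      have h2 := hrough 2 Nat.prime_two (by rw [h0]; exact dvd_zero _)
      push_cast at h2
      linarith
    refine ⟨hne, ?_, hrough⟩
    apply Pool.Agent.H563.PL.few hκ0 hX2
    · have h1 : s ≤ X := by
        have h2 : (X : ℝ) ^ ε ≤ X := by
          calc (X : ℝ) ^ ε ≤ (X : ℝ) ^ (1 : ℝ) := Real.rpow_le_rpow_of_exponent_le (by linarith) hε1
            _ = X := Real.rpow_one _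
        exact_mod_cast hsX.trans h2
      obtain ⟨ha, hb⟩ := hab i
      have ha' : (a i).natAbs ≤ X := by
        have : ((a i).natAbs : ℤ) ≤ X := by rwa [Int.natCast_natAbs]
        exact_mod_cast this
      have hb' : (b i).natAbs ≤ X := by
        have : ((b i).natAbs : ℤ) ≤ X := by rwa [Int.natCast_natAbs]
        exact_mod_cast this
      calc (a i * s + b i).natAbs ≤ (a i * s).natAbs + (b i).natAbs := Int.natAbs_add_le _ _
        _ = (a i).natAbs * s + (b i).natAbs := by rw [Int.natAbs_mul, Int.natAbs_natCast]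
        _ ≤ X * X + X := Nat.add_le_add (Nat.mul_le_mul ha' h1) hb'
        _ ≤ X ^ 3 := by nlinarith
    · intro q hq hqd
      apply hrough q hq
      exact Int.natCast_dvd.2 hqd

/-- **One thin set of arguments for all admissible systems of linear forms; triplets of almost primes.** -/
theorem result :
    (∀ (J : ℕ) (ε : ℝ), 1 ≤ J → 0 < ε → ε ≤ 1 →
      ∃ r : ℕ, ∃ δ : ℝ, 0 < δ ∧ ∀ B : ℝ, ∃ C : ℝ, 0 < C ∧ ∃ S : Set ℕ, Thin (J + 1) C S ∧
        ∃ X₀ : ℕ, ∀ X : ℕ, X₀ ≤ X → ∀ a b : Fin J → ℤ, (∀ i, |a i| ≤ X ∧ |b i| ≤ X) → Admissible a b →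
          ∃ H : Finset ℕ, B * Real.log X ≤ H.card ∧
            ∀ s ∈ H, s ∈ S ∧ 2 ≤ s ∧ (s : ℝ) ≤ (X : ℝ) ^ ε ∧ ∀ i, AlmostPrime r ((X : ℝ) ^ δ) (a i * s + b i)) ∧
    ∀ ε : ℝ, 0 < ε → ε ≤ 1 → ∃ r : ℕ, ∃ δ : ℝ, 0 < δ ∧ ∀ B : ℝ, ∃ C : ℝ, 0 < C ∧ ∃ S : Set ℕ, Thin 4 C S ∧
      ∃ N₀ : ℕ, ∀ N : ℕ, N₀ ≤ N → ∀ h ∈ ({2, 4} : Set ℕ), ∃ H : Finset ℕ, B * Real.log N ≤ H.card ∧
        ∀ s ∈ H, s ∈ S ∧ 1 ≤ s ∧ (s : ℝ) ≤ (N : ℝ) ^ ε ∧ AlmostPrime r ((N : ℝ) ^ δ) (N + s : ℕ) ∧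
          AlmostPrime r ((N : ℝ) ^ δ) (N + s + h : ℕ) ∧ AlmostPrime r ((N : ℝ) ^ δ) (N + s + 6 : ℕ) := by
  refine ⟨fun J ε hJ h0 h1 => all_systems J hJ ε h0 h1, fun ε h0 h1 => ?_⟩
  obtain ⟨r, δ, hδ, h⟩ := all_systems 3 (by norm_num) (ε / 2) (by positivity) (by linarith)
  refine ⟨r, δ, hδ, fun B => ?_⟩
  obtain ⟨C, hC, S, hS, X₀, hX⟩ := h (|B| + 1)
  refine ⟨C, hC, S, hS, ?_⟩
  have ev1 := (tendsto_rpow_atTop (show 0 < ε / 2 by positivity)).eventually (eventually_ge_atTop (7 : ℝ))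
  obtain ⟨x₀, hx₀⟩ := eventually_atTop.1 ev1
  refine ⟨X₀ + ⌈x₀⌉₊ + 1, fun N hN g hg => ?_⟩
  have hN1 : 1 ≤ N := by omega
  have hNr : (1 : ℝ) ≤ N := by exact_mod_cast hN1
  have hg4 : g = 2 ∨ g = 4 := by simpa using hg
  obtain ⟨H, hH1, hH2⟩ := hX (N + 6) (by omega) (fun _ => 1) (fun i => (N : ℤ) + ((![0, g, 6] i : ℕ) : ℤ)) (by
    intro i
    constructor
    · rw [abs_one]
      push_cast
      have : (0 : ℤ) ≤ N := by positivity
      linarith
    · have h3 : (![0, g, 6] i : ℕ) ≤ 6 := by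
        fin_cases i
        · simp
        · show g ≤ 6
          omega
        · show 6 ≤ 6
          omega
      rw [abs_of_nonneg (by positivity)]
      have : (((![0, g, 6] i : ℕ) : ℤ)) ≤ 6 := by exact_mod_cast h3
      push_cast
      linarith) (by
    intro p hp
    obtain ⟨x, x1, x2, x3⟩ := triplet g hg4 p hp
    refine ⟨x - N, fun i => ?_⟩
    fin_cases i
    · show ¬ (p : ℤ) ∣ 1 * (x - N) + ((N : ℤ) + ((0 : ℕ) : ℤ))
      have e : 1 * (x - N) + ((N : ℤ) + ((0 : ℕ) : ℤ)) = x := by push_cast; ring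
      rwa [e]
    · show ¬ (p : ℤ) ∣ 1 * (x - N) + ((N : ℤ) + ((g : ℕ) : ℤ))
      have e : 1 * (x - N) + ((N : ℤ) + ((g : ℕ) : ℤ)) = x + g := by push_cast; ring
      rwa [e]
    · show ¬ (p : ℤ) ∣ 1 * (x - N) + ((N : ℤ) + ((6 : ℕ) : ℤ))
      have e : 1 * (x - N) + ((N : ℤ) + ((6 : ℕ) : ℤ)) = x + 6 := by push_cast; ring
      rwa [e])
  refine ⟨H, ?_, ?_⟩
  · refine le_trans ?_ hH1
    have h2 : Real.log N ≤ Real.log ((N + 6 : ℕ) : ℝ) := by
      apply Real.log_le_log (by linarith)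
      push_cast
      linarith
    have h3 : 0 ≤ Real.log N := Real.log_nonneg hNr
    calc B * Real.log N ≤ (|B| + 1) * Real.log N := by
          apply mul_le_mul_of_nonneg_right _ h3
          linarith [le_abs_self B]
      _ ≤ (|B| + 1) * Real.log ((N + 6 : ℕ) : ℝ) := mul_le_mul_of_nonneg_left h2 (by positivity)
  · intro s hs
    obtain ⟨g1, g2, g3, g4⟩ := hH2 s hs
    have hcmp : (N : ℝ) ^ δ ≤ ((N + 6 : ℕ) : ℝ) ^ δ := by
      apply Real.rpow_le_rpow (by linarith) _ hδ.le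
      push_cast
      linarith
    have hconv : ∀ i : Fin 3, AlmostPrime r ((N : ℝ) ^ δ) ((N + s + ![0, g, 6] i : ℕ) : ℤ) := by
      intro i
      obtain ⟨k1, k2, k3⟩ := g4 i
      have e : (1 : ℤ) * s + ((N : ℤ) + ((![0, g, 6] i : ℕ) : ℤ)) = ((N + s + ![0, g, 6] i : ℕ) : ℤ) := by
        push_cast
        ring
      rw [e] at k1 k2 k3
      exact ⟨k1, k2, fun p hp hd => lt_of_le_of_lt hcmp (k3 p hp hd)⟩
    refine ⟨g1, by omega, ?_, ?_, ?_, ?_⟩
    · refine g3.trans ?_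
      have h2 := hx₀ N ((Nat.le_ceil _).trans (by exact_mod_cast (by omega : ⌈x₀⌉₊ ≤ N)))
      have h3 : (((N + 6 : ℕ) : ℝ)) ≤ 7 * N := by
        push_cast
        linarith
      calc ((N + 6 : ℕ) : ℝ) ^ (ε / 2) ≤ (7 * (N : ℝ)) ^ (ε / 2) := Real.rpow_le_rpow (by positivity) h3 (by positivity)
        _ = 7 ^ (ε / 2) * (N : ℝ) ^ (ε / 2) := Real.mul_rpow (by norm_num) (by linarith)
        _ ≤ 7 * (N : ℝ) ^ (ε / 2) := by
            apply mul_le_mul_of_nonneg_right _ (by positivity)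
            calc (7 : ℝ) ^ (ε / 2) ≤ 7 ^ (1 : ℝ) := Real.rpow_le_rpow_of_exponent_le (by norm_num) (by linarith)
              _ = 7 := Real.rpow_one _
        _ ≤ (N : ℝ) ^ (ε / 2) * (N : ℝ) ^ (ε / 2) := mul_le_mul_of_nonneg_right h2 (by positivity)
        _ = (N : ℝ) ^ ε := by
            rw [← Real.rpow_add (by linarith)]
            congr 1
            ring
    · have := hconv 0
      simpa using this
    · exact hconv 1
    · exact hconv 2

end Pool.Agent.Results.MP_dddec0_nt.ThinSetForAllSystems
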